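import Mathlib

set_option autoImplicit false

open Finset

namespace Pool.Agent.H.MP_8d021f_pr

section
variable {α : Type} [DecidableEq α]

/-- orderings of a finite set -/
noncomputable def ords (R : Finset α) : Finset (List α) := R.toList.permutations.toFinset

theorem mem_ords {R : Finset α} {l : List α} : l ∈ ords R ↔ l.Nodup ∧ ∀ e, e ∈ l ↔ e ∈ R := by
  rw [ords, List.mem_toFinset, List.mem_permutations]
  exact ⟨fun h => ⟨h.nodup_iff.2 R.nodup_toList, fun e => h.mem_iff.trans mem_toList⟩,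
    fun h => (List.perm_ext_iff_of_nodup h.1 R.nodup_toList).2 fun e => (h.2 e).trans mem_toList.symm⟩

theorem card_ords (R : Finset α) : (ords R).card = R.card.factorial := by
  rw [ords, List.toFinset_card_of_nodup (List.nodup_permutations _ R.nodup_toList),
    List.length_permutations, length_toList]

theorem sum_ords {R : Finset α} (h : R.Nonempty) (F : List α → ℝ) :
    ∑ l ∈ ords R, F l = ∑ e ∈ R, ∑ l ∈ ords (R.erase e), F (e :: l) := by
  rw [sum_sigma']
  refine (sum_bij (fun x _ => x.1 :: x.2) ?_ ?_ ?_ fun _ _ => rfl).symm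
  · rintro ⟨e, l⟩ h
    simp only [mem_sigma, mem_ords, mem_erase, List.nodup_cons, List.mem_cons] at h ⊢
    refine ⟨⟨fun k => ((h.2.2 e).1 k).1 rfl, h.2.1⟩, fun x => ?_⟩
    rw [h.2.2]
    by_cases k : x = e <;> simp [k, h.1]
  · rintro ⟨e, l⟩ _ ⟨e', l'⟩ _ h
    obtain ⟨rfl, rfl⟩ := List.cons.inj h
    rfl
  · rintro (_ | ⟨e, l⟩) hl
    · obtain ⟨x, hx⟩ := h
      simpa using ((mem_ords.1 hl).2 x).2 hx
    refine ⟨⟨e, l⟩, ?_, rfl⟩
    simp only [mem_sigma, mem_ords, mem_erase, List.nodup_cons, List.mem_cons] at hl ⊢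
    refine ⟨(hl.2 e).1 (.inl rfl), hl.1.2, fun x => ?_⟩
    rw [← hl.2]
    by_cases k : x = e <;> simp [k, hl.1.1]

theorem sup {σ : Type} (step : σ → α → σ) (Φ : ℕ → σ → ℝ) (I : ℕ → σ → Finset α → Prop)
    (h : ∀ τ s R, I (τ + 1) s R → R.Nonempty ∧ (∀ e ∈ R, I τ (step s e) (R.erase e)) ∧
      ∑ e ∈ R, Φ τ (step s e) ≤ R.card * Φ (τ + 1) s) (τ : ℕ) : ∀ s R, I τ s R →
    ∑ l ∈ ords R, Φ 0 ((l.take τ).foldl step s) ≤ R.card.factorial * Φ τ s := by
  induction τ with
  | zero => intro s R _; simp [card_ords]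
  | succ τ ih =>
    intro s R hI
    obtain ⟨h1, h2, h3⟩ := h τ s R hI
    rw [sum_ords h1]
    refine (sum_le_sum fun e he => (ih _ _ (h2 e he)).trans_eq
      (by rw [card_erase_of_mem he])).trans ?_
    rw [← mul_sum, ← Nat.mul_factorial_pred h1.card_pos.ne', Nat.cast_mul, mul_comm (R.card : ℝ),
      mul_assoc]
    exact mul_le_mul_of_nonneg_left h3 (Nat.cast_nonneg _)

theorem markov {s : Finset (List α)} {A : List α → Prop} [DecidablePred A] {F : List α → ℝ}
    (h0 : ∀ l, 0 ≤ F l) (h1 : ∀ l ∈ s, A l → 1 ≤ F l) : ((s.filter A).card : ℝ) ≤ ∑ l ∈ s, F l := by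
  rw [card_filter]; push_cast
  exact sum_le_sum fun l hl => by split_ifs with h; exacts [h1 l hl h, h0 l]

theorem fm (E F : Finset α) {M : ℝ} (hM : 0 < M) {t : ℕ} (h : M + t ≤ E.card) :
    (((ords E).filter fun l => ∀ e ∈ F, e ∈ l.take t).card : ℝ) ≤
      E.card.factorial * (t / M) ^ F.card := by
  have h1 : ∀ (l : List α) (F : Finset α), (∀ e ∈ F, e ∈ l) → l.foldl erase F = ∅ := fun l => by
    induction l with
    | nil => exact fun F h => eq_empty_of_forall_notMem (by simpa using h)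
    | cons a l ih => exact fun F h => ih _ fun e he => by simpa [(mem_erase.1 he).1] using h e (mem_erase.1 he).2
  refine (markov (fun l => by positivity) fun l _ hl => by rw [h1 _ _ hl]; simp).trans
    (sup erase (fun τ F => ((τ : ℝ) / M) ^ F.card) (fun τ _ R => M + τ ≤ R.card)
      (fun τ F R hR => ?_) t F E h)
  push_cast at hR ⊢
  have h2 : (0 : ℝ) ≤ τ := τ.cast_nonneg
  have h3 : 0 < R.card := by exact_mod_cast (by linarith : (0 : ℝ) < R.card)
  refine ⟨card_pos.1 h3, fun e he => ?_, ?_⟩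
  · rw [card_erase_of_mem he, Nat.cast_pred h3]; linarith
  have h4 := pow_add_mul_le_add_pow (a := τ / M) (b := 1 / M) (by positivity) (by positivity) F.card
  rw [← add_div] at h4
  refine le_trans ?_ (mul_le_mul_of_nonneg_left h4 (Nat.cast_nonneg _))
  refine (sum_le_sum (g := fun e => (τ / M : ℝ) ^ F.card + if e ∈ F then (τ / M) ^ (F.card - 1) else 0)
    fun e _ => ?_).trans ?_
  · split_ifs with h
    · rw [card_erase_of_mem h]; exact le_add_of_nonneg_left (by positivity)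
    · simp [h]
  rw [sum_add_distrib, sum_const, nsmul_eq_mul, mul_add, sum_ite_mem, sum_const, nsmul_eq_mul]
  have h5 : ((R ∩ F).card : ℝ) ≤ F.card := by exact_mod_cast card_le_card inter_subset_right
  have h6 : 1 ≤ R.card * (1 / M) := by rw [mul_one_div, one_le_div hM]; linarith
  have h7 : 0 ≤ (τ / M : ℝ) ^ (F.card - 1) := by positivity
  nlinarith [mul_nonneg (F.card.cast_nonneg (α := ℝ)) h7]

end

/-- subsolution for the pure birth process -/
noncomputable def g (k : ℕ) (μ l : ℝ) (τ s : ℕ) : ℝ :=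
  (1 - 2 * μ) ^ τ * (τ.choose (k - s) * l ^ (k - s) * (k - 1).descFactorial (k - s))

variable {k : ℕ} {μ l : ℝ}

theorem g_succ (τ : ℕ) {s : ℕ} (h1 : 1 ≤ s) (h2 : s < k) :
    g k μ l (τ + 1) s = (1 - 2 * μ) * (g k μ l τ s + l * s * g k μ l τ (s + 1)) := by
  obtain ⟨d, rfl⟩ := Nat.exists_eq_add_of_lt h2
  simp only [g, show s + d + 1 - s = d + 1 by omega, show s + d + 1 - (s + 1) = d by omega,
    Nat.choose_succ_succ', Nat.descFactorial_succ, show s + d + 1 - 1 - d = s by omega]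
  push_cast; ring

theorem g_top (τ : ℕ) {s : ℕ} (h : k ≤ s) : g k μ l τ s = (1 - 2 * μ) ^ τ := by
  simp [g, Nat.sub_eq_zero_of_le h]

theorem g_zero {s : ℕ} (h : s < k) : g k μ l 0 s = 0 := by
  simp [g, Nat.choose_eq_zero_of_lt (Nat.sub_pos_of_lt h)]

theorem g_nonneg (h1 : 2 * μ ≤ 1) (h2 : 0 ≤ l) (τ s : ℕ) : 0 ≤ g k μ l τ s :=
  mul_nonneg (pow_nonneg (by linarith) _) (by positivity)

theorem g_le (h1 : 2 * μ ≤ 1) (h2 : 0 ≤ l) (h3 : l * k ≤ 2 * μ) (τ : ℕ) :
    ∀ s, 1 ≤ s → g k μ l τ s ≤ 1 := by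
  have h0 : 0 ≤ l * k := by positivity
  have h4 : ∀ τ s, k ≤ s → g k μ l τ s ≤ 1 := fun τ s h => by
    rw [g_top _ h]; exact pow_le_one₀ (by linarith) (by linarith)
  induction τ with
  | zero => exact fun s _ => (le_or_gt k s).elim (h4 _ _) fun h => by simp [g_zero h]
  | succ τ ih =>
    refine fun s hs => (le_or_gt k s).elim (h4 _ _) fun h => ?_
    have h5 : l * s ≤ l * k := by gcongr
    have h6 : l * s * g k μ l τ (s + 1) ≤ l * s := mul_le_of_le_one_right (by positivity) (ih _ (by omega))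
    rw [g_succ τ hs h]
    refine (mul_le_mul_of_nonneg_left (show _ ≤ 1 + 2 * μ by linarith [ih s hs]) (by linarith)).trans ?_
    nlinarith

theorem g_step (h1 : 2 * μ ≤ 1) (h2 : 0 ≤ l) (h3 : l * k ≤ 2 * μ) (τ : ℕ) {s : ℕ} (hs : 1 ≤ s) {q : ℝ}
    (q0 : 0 ≤ q) (q1 : q ≤ μ) (q2 : s < k → 2 * (l * s) ≤ q) :
    g k μ l (τ + 1) s ≤ g k μ l τ s + q * (1 - Real.exp (g k μ l τ s - g k μ l τ (s + 1))) := by
  rcases le_or_gt k s with h | h
  · rw [g_top _ h, g_top _ h, g_top _ (h.trans s.le_succ), pow_succ]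
    simpa using mul_le_of_le_one_right (pow_nonneg (by linarith) _) (by linarith)
  rw [g_succ τ hs h]
  have a0 := g_nonneg (k := k) h1 h2 τ s
  have b0 := g_nonneg (k := k) h1 h2 τ (s + 1)
  have a1 := g_le h1 h2 h3 τ s hs
  have b1 := g_le h1 h2 h3 τ (s + 1) (by omega)
  generalize g k μ l τ s = a at *
  generalize g k μ l τ (s + 1) = b at *
  have e1 : Real.exp a ≤ 1 + 2 * a := by
    have := Real.exp_bound' a0 a1 one_pos
    simp at this; linarith
  have e2 : Real.exp (-b) ≤ 1 - b / 2 := by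
    have := Real.add_one_le_exp b
    rw [Real.exp_neg, inv_le_iff_one_le_mul₀ (Real.exp_pos _)]
    nlinarith
  have e3 : Real.exp (a - b) ≤ 1 + 2 * a - b / 2 := by
    rw [sub_eq_add_neg, Real.exp_add]
    refine (mul_le_mul e1 e2 (Real.exp_pos _).le (by linarith)).trans ?_
    nlinarith
  have e4 := q2 h
  have e5 : 0 ≤ l * s := by positivity
  nlinarith [mul_le_mul_of_nonneg_left e3 q0, mul_nonneg e5 b0, mul_nonneg (mul_nonneg e5 b0) (q0.trans q1)]

end Pool.Agent.H.MP_8d021f_pr
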