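import Pool.Agent.H.MP_8d021f_pr.A

set_option autoImplicit false

open Finset

namespace Pool.Agent.H.MP_8d021f_pr

variable {n : ℕ}

/-- vertices of the tree number `j` -/
def tr (f : Fin n → ℕ × ℕ) (j : ℕ) : Finset (Fin n) := univ.filter fun x => (f x).1 = j ∧ (f x).2 ≠ 0

/-- the edge `e` attaches `y` at the free place `p` -/
def W (k : ℕ) (f : Fin n → ℕ × ℕ) (e : Sym2 (Fin n)) (y : Fin n) (p : ℕ × ℕ) : Prop :=
  (tr f p.1).card < k ∧ (f y).2 = 0 ∧ 2 ≤ p.2 ∧ (∀ z, f z ≠ p) ∧ ∃ x, e = s(x, y) ∧ f x = (p.1, p.2 / 2)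

open Classical in
noncomputable def step (k : ℕ) (f : Fin n → ℕ × ℕ) (e : Sym2 (Fin n)) : Fin n → ℕ × ℕ :=
  if h : ∃ q : Fin n × ℕ × ℕ, W k f e q.1 q.2 then Function.update f h.choose.1 h.choose.2 else f

variable {k m : ℕ} {f : Fin n → ℕ × ℕ} {e : Sym2 (Fin n)}

theorem step_cases (k : ℕ) (f : Fin n → ℕ × ℕ) (e : Sym2 (Fin n)) :
    (step k f e = f ∧ ∀ y p, ¬ W k f e y p) ∨ ∃ y p, W k f e y p ∧ step k f e = Function.update f y p := by
  unfold step
  split_ifs with h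
  · exact .inr ⟨_, _, h.choose_spec, rfl⟩
  · exact .inl ⟨rfl, fun y p hp => h ⟨(y, p), hp⟩⟩

theorem W.uniq {y z : Fin n} {p q : ℕ × ℕ} (h : W k f e y p) (h' : W k f e z q) : p.1 = q.1 := by
  obtain ⟨-, a1, a2, -, x, rfl, a3⟩ := h
  obtain ⟨-, b1, b2, -, w, b4, b3⟩ := h'
  rcases Sym2.eq_iff.1 b4 with ⟨rfl, -⟩ | ⟨rfl, -⟩
  · exact (Prod.mk.inj (a3.symm.trans b3)).1
  · rw [a3] at b1; simp only at b1; omega

theorem W.tr {y : Fin n} {p : ℕ × ℕ} (h : W k f e y p) (j : ℕ) :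
    (tr (Function.update f y p) j).card = (tr f j).card + if p.1 = j then 1 else 0 := by
  obtain ⟨-, a1, a2, -⟩ := h
  have h1 : y ∉ MP_8d021f_pr.tr f j := by simp [MP_8d021f_pr.tr, a1]
  split_ifs with h2
  · rw [← card_insert_of_notMem h1]
    congr 1; ext x
    by_cases h3 : x = y <;> simp [MP_8d021f_pr.tr, h3, h2]; omega
  · rw [add_zero]; congr 1; ext x
    by_cases h3 : x = y <;> simp [MP_8d021f_pr.tr, h3, h2, a1]

/-- invariant of the strategy -/
structure Inv (k m : ℕ) (f : Fin n → ℕ × ℕ) (B : Set (Sym2 (Fin n))) : Prop where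
  inj : ∀ x y, (f x).2 ≠ 0 → f x = f y → x = y
  par : ∀ y, 2 ≤ (f y).2 → ∃ x, f x = ((f y).1, (f y).2 / 2) ∧ s(x, y) ∈ B
  lt : ∀ x, (f x).2 ≠ 0 → (f x).1 < m
  le : ∀ j, (tr f j).card ≤ k
  pos : ∀ j < m, 1 ≤ (tr f j).card

theorem Inv.upd {B C : Set (Sym2 (Fin n))} (h : Inv k m f B) {y : Fin n} {p : ℕ × ℕ}
    (hW : W k f e y p) (h1 : B ⊆ C) (h2 : e ∈ C) : Inv k m (Function.update f y p) C := by
  have ht := hW.tr
  obtain ⟨a0, a1, a2, a3, x, rfl, a4⟩ := hW
  have h3 : ∀ z, (f z).2 ≠ 0 → Function.update f y p z = f z := fun z hz =>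
    Function.update_of_ne (fun h : z = y => hz (h ▸ a1)) _ _
  have h4 : (f x).2 ≠ 0 := by rw [a4]; simp only; omega
  refine ⟨fun u v => ?_, fun u => ?_, fun u => ?_, fun j => ?_, fun j hj => ?_⟩
  · by_cases b1 : u = y <;> by_cases b2 : v = y <;> simp [b1, b2]
    · exact fun _ h => (a3 v h.symm).elim
    · exact fun _ => a3 u
    · exact h.inj u v
  · by_cases b1 : u = y
    · subst b1
      exact fun _ => ⟨x, by rw [h3 x h4, a4, Function.update_self], h2⟩
    · rw [Function.update_of_ne b1]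
      intro hu
      obtain ⟨w, c1, c2⟩ := h.par u hu
      exact ⟨w, by rw [h3 w (by rw [c1]; simp only; omega), c1], h1 c2⟩
  · by_cases b1 : u = y
    · subst b1
      simpa [a4] using fun _ => h.lt x h4
    · rw [Function.update_of_ne b1]; exact h.lt u
  · rw [ht]; split_ifs with h5
    · exact h5 ▸ a0
    · exact h.le j
  · rw [ht]; exact (h.pos j hj).trans (Nat.le_add_right _ _)

theorem Inv.lab {B : Set (Sym2 (Fin n))} (h : Inv k m f B) :
    (univ.filter fun x => (f x).2 ≠ 0).card ≤ k * m := by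
  simpa using card_le_mul_card_image_of_maps_to (f := fun x => (f x).1) (t := range m)
    (s := univ.filter fun x => (f x).2 ≠ 0) (fun x hx => mem_range.2 (h.lt x (mem_filter.1 hx).2)) k
    fun j _ => by rw [filter_filter]; simpa only [tr, and_comm] using h.le j

open Classical in
theorem good_le (R : Finset (Sym2 (Fin n))) (j : ℕ) :
    (R.filter fun e => ∃ y c, W k f e y (j, c)).card ≤ k * n := by
  rcases (R.filter fun e => ∃ y c, W k f e y (j, c)).eq_empty_or_nonempty with h | ⟨e, h⟩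
  · simp [h]
  obtain ⟨y, c, h, -⟩ := (mem_filter.1 h).2
  refine (card_le_card (t := (tr f j ×ˢ univ).image fun x => s(x.1, x.2)) fun e he => ?_).trans
    (card_image_le.trans (by simpa using Nat.mul_le_mul_right n h.le))
  obtain ⟨y, c, -, -, a2, -, x, rfl, a4⟩ := (mem_filter.1 he).2
  refine mem_image.2 ⟨(x, y), by simp [tr, a4]; omega, rfl⟩

open Classical in
theorem Inv.good_ge {B : Set (Sym2 (Fin n))} (h : Inv k m f B) {R : Finset (Sym2 (Fin n))} {T : ℕ}
    (h1 : ((univ.filter fun e : Sym2 (Fin n) => ¬ e.IsDiag) \ R).card ≤ T) (h2 : 2 * (k * m) ≤ n)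
    {j : ℕ} (hj : (tr f j).card < k) :
    (tr f j).card * n ≤ 4 * (R.filter fun e => ∃ y c, W k f e y (j, c)).card + 4 * T := by
  set O := (tr f j).filter fun x => ∃ c, c / 2 = (f x).2 ∧ ∀ z, f z ≠ (j, c)
  set U := univ.filter fun x => ¬ (f x).2 ≠ 0
  have h3 : n ≤ 2 * U.card := by
    have : _ + U.card = _ := card_filter_add_card_filter_not (s := univ) fun x => (f x).2 ≠ 0
    have := h.lab
    simp only [card_univ, Fintype.card_fin] at *
    omega
  have h4 : (tr f j).card ≤ 2 * O.card := by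
    have a1 : O.card + _ = _ := card_filter_add_card_filter_not (s := tr f j)
      fun x => ∃ c, c / 2 = (f x).2 ∧ ∀ z, f z ≠ (j, c)
    have a2 := card_mul_le_card_mul (m := 2) (n := 1) (t := tr f j) (s := (tr f j).filter fun x =>
      ¬ ∃ c, c / 2 = (f x).2 ∧ ∀ z, f z ≠ (j, c)) (fun x z => (f z).2 / 2 = (f x).2)
      (fun x hx => by
        simp only [tr, mem_filter, not_exists, not_and, not_forall, not_not] at hx
        obtain ⟨u, hu⟩ := hx.2 (2 * (f x).2) (by omega)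
        obtain ⟨v, hv⟩ := hx.2 (2 * (f x).2 + 1) (by omega)
        refine one_lt_card.2 ⟨u, ?_, v, ?_, fun h => ?_⟩
        · simpa [tr, hu] using hx.1.2.2
        · simp [tr, hv]; omega
        · rw [h, hv] at hu; simp at hu)
      fun z _ => card_le_one.2 fun x hx w hw => by
        simp only [tr, mem_bipartiteBelow, mem_filter] at hx hw
        exact h.inj x w hx.1.1.2.2 (Prod.ext (hx.1.1.2.1.trans hw.1.1.2.1.symm) (hx.2.symm.trans hw.2))
    omega
  have h5 : ∀ x ∈ O ×ˢ U, (f x.1).1 = j ∧ (f x.1).2 ≠ 0 ∧ (f x.2).2 = 0 ∧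
      ∃ c, c / 2 = (f x.1).2 ∧ ∀ z, f z ≠ (j, c) := fun x hx => by
    simp only [O, U, tr, mem_product, mem_filter, not_not] at hx
    exact ⟨hx.1.1.2.1, hx.1.1.2.2, hx.2.2, hx.1.2⟩
  have h6 : ((O ×ˢ U).image fun x => s(x.1, x.2)).card = O.card * U.card := by
    rw [card_image_of_injOn, card_product]
    intro x hx y hy hxy
    rcases Sym2.eq_iff.1 hxy with a | a
    · exact Prod.ext a.1 a.2
    · exact ((h5 x hx).2.1 (a.1 ▸ (h5 y hy).2.2.1)).elim
  have h7 := card_le_card (s := (O ×ˢ U).image fun x => s(x.1, x.2))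
    (t := (R.filter fun e => ∃ y c, W k f e y (j, c)) ∪
      ((univ.filter fun e : Sym2 (Fin n) => ¬ e.IsDiag) \ R)) fun e he => by
    obtain ⟨x, hx, rfl⟩ := mem_image.1 he
    obtain ⟨a1, a2, a3, c, a4, a5⟩ := h5 x hx
    by_cases a6 : s(x.1, x.2) ∈ R
    · exact mem_union_left _ (mem_filter.2 ⟨a6, x.2, c, hj, a3, by simp only; omega, a5, x.1, rfl,
        Prod.ext a1 a4.symm⟩)
    · exact mem_union_right _ (by simpa [a6] using fun h : x.1 = x.2 => a2 (h ▸ a3))
  have h8 := h7.trans (card_union_le _ _)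
  rw [h6] at h8
  nlinarith [Nat.mul_le_mul h4 h3]

open Classical in
theorem pot {μ l : ℝ} (h1 : 2 * μ ≤ 1) (h2 : 0 ≤ l) (h3 : l * k ≤ 2 * μ) (τ : ℕ)
    {B : Set (Sym2 (Fin n))} (h : Inv k m f B) {R : Finset (Sym2 (Fin n))} (hR : R.Nonempty)
    (h4 : (k * n : ℝ) ≤ μ * R.card) (h5 : ∀ j < m, (tr f j).card < k → 2 * (l * (tr f j).card) * R.card ≤
      (R.filter fun e => ∃ y c, W k f e y (j, c)).card) :
    ∑ e ∈ R, Real.exp (-∑ j ∈ range m, g k μ l τ (tr (step k f e) j).card) ≤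
      R.card * Real.exp (-∑ j ∈ range m, g k μ l (τ + 1) (tr f j).card) := by
  set D : ℕ → ℝ := fun j => 1 - Real.exp (g k μ l τ (tr f j).card - g k μ l τ ((tr f j).card + 1))
  set Y := ∑ j ∈ range m, g k μ l τ (tr f j).card with hY
  have h6 : ∀ e, Real.exp (-∑ j ∈ range m, g k μ l τ (tr (step k f e) j).card) =
      Real.exp (-Y) * (1 - ∑ j ∈ range m, if ∃ y c, W k f e y (j, c) then D j else 0) := fun e => by
    rcases step_cases k f e with ⟨a1, a2⟩ | ⟨y, p, a1, a2⟩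
    · simp [a1, a2, hY]
    have a3 : p.1 ∈ range m := by
      obtain ⟨-, -, b2, -, x, -, b4⟩ := a1
      simpa [b4] using h.lt x (by rw [b4]; simp only; omega)
    rw [sum_eq_single_of_mem p.1 a3 (f := fun j => if ∃ y c, W k f e y (j, c) then D j else 0)
      fun j _ hj => if_neg fun ⟨_, _, b⟩ => hj (b.uniq a1), if_pos ⟨y, p.2, a1⟩, sub_sub_cancel,
      ← Real.exp_add, hY, ← add_sum_erase _ _ a3, ← add_sum_erase _ _ a3, a2, a1.tr, if_pos rfl,
      sum_congr rfl fun j hj => by rw [a1.tr, if_neg (mem_erase.1 hj).1.symm, add_zero]]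
    congr 1; ring
  have h7 : (0 : ℝ) < R.card := by exact_mod_cast hR.card_pos
  set q : ℕ → ℝ := fun j => (R.filter fun e => ∃ y c, W k f e y (j, c)).card / R.card with hq
  have h8 : ∑ e ∈ R, (1 - ∑ j ∈ range m, if ∃ y c, W k f e y (j, c) then D j else 0) =
      R.card * (-∑ j ∈ range m, q j * D j + 1) := by
    rw [sum_sub_distrib, sum_comm]
    simp only [← sum_filter, sum_const, nsmul_eq_mul, mul_add, mul_neg, mul_sum, hq]
    simp only [← mul_assoc, mul_div_cancel₀ _ h7.ne']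
    ring
  simp only [h6, ← mul_sum, h8]
  rw [mul_left_comm]
  refine mul_le_mul_of_nonneg_left ((mul_le_mul_of_nonneg_left (Real.add_one_le_exp _)
    (Real.exp_pos _).le).trans ?_) h7.le
  rw [← Real.exp_add, Real.exp_le_exp, ← neg_add, neg_le_neg_iff, hY, ← sum_add_distrib]
  refine sum_le_sum fun j hj => g_step h1 h2 h3 τ (h.pos j (mem_range.1 hj)) (by positivity) ?_
    fun a => (le_div_iff₀ h7).2 (h5 j (mem_range.1 hj) a)
  rw [div_le_iff₀ h7]
  exact le_trans (by exact_mod_cast good_le R j) h4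

/-- initial position -/
def f0 (n m : ℕ) : Fin n → ℕ × ℕ := fun x => if x.1 < m then (x, 1) else (0, 0)

theorem tr0 (h : m ≤ n) (j : ℕ) : (tr (f0 n m) j).card = if j < m then 1 else 0 := by
  split_ifs with hj
  · refine card_eq_one.2 ⟨⟨j, hj.trans_le h⟩, ?_⟩
    ext x
    by_cases hx : x.1 < m <;> simp [tr, f0, hx, Fin.ext_iff]; omega
  · refine card_eq_zero.2 (eq_empty_of_forall_notMem fun x => ?_)
    by_cases hx : x.1 < m <;> simp [tr, f0, hx]; omega

theorem inv0 (h : m ≤ n) (hk : 0 < m → 1 ≤ k) (B : Set (Sym2 (Fin n))) : Inv k m (f0 n m) B := by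
  refine ⟨fun x y => ?_, fun x => ?_, fun x => ?_, fun j => ?_, fun j hj => ?_⟩
  · by_cases a : x.1 < m <;> by_cases b : y.1 < m <;> simp [f0, a, b, Fin.ext_iff]
  · by_cases a : x.1 < m <;> simp [f0, a]
  · by_cases a : x.1 < m <;> simp [f0, a]
  · rw [tr0 h]; split_ifs <;> omega
  · rw [tr0 h, if_pos hj]

open Classical in
theorem fail (hk : 1 ≤ k) (hm : 2 * (k * m) ≤ n) (hn : 16 * k ≤ n) :
    (((ords (univ.filter fun e : Sym2 (Fin n) => ¬ e.IsDiag)).filter fun L => ∀ j < m,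
      (tr ((L.take (n / 8)).foldl (step k) (f0 n m)) j).card < k).card : ℝ) ≤
    (univ.filter fun e : Sym2 (Fin n) => ¬ e.IsDiag).card.factorial * Real.exp (-(m / 2 ^ (10 * k))) := by
  set E := univ.filter fun e : Sym2 (Fin n) => ¬ e.IsDiag with hE
  have a0 : (E.card : ℝ) = n * (n - 1) / 2 := by
    rw [← Nat.cast_choose_two, ← Fintype.card_subtype, Sym2.card_subtype_not_diag, Fintype.card_fin]
  have a1 : (1 : ℝ) ≤ k := by exact_mod_cast hk
  have a2 : (16 * k : ℝ) ≤ n := by exact_mod_cast hn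
  have a3 : (0 : ℝ) < n := by linarith
  have a4 : ((n / 8 : ℕ) : ℝ) ≤ n / 8 := Nat.cast_div_le
  have a5 : 2 * (4 * k / n : ℝ) ≤ 1 / 2 := by
    rw [← mul_div_assoc, div_le_iff₀ a3]; linarith
  have hmn : m ≤ n := by nlinarith
  refine (markov (fun l => (Real.exp_pos _).le) fun L _ hL => ?_).trans ((sup (step k)
    (fun τ f => Real.exp (-∑ j ∈ range m, g k (4 * k / n) (1 / (8 * n)) τ (tr f j).card))
    (fun τ f R => Inv k m f Set.univ ∧ R ⊆ E ∧ τ ≤ n / 8 ∧ R.card + n / 8 = E.card + τ)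
    (fun τ f R ⟨b1, b2, b3, b4⟩ => ?_) (n / 8) (f0 n m) E
      ⟨inv0 hmn (fun _ => hk) _, subset_rfl, le_rfl, rfl⟩).trans
      (mul_le_mul_of_nonneg_left ?_ (Nat.cast_nonneg _)))
  · rw [sum_eq_zero fun j hj => g_zero (hL j (mem_range.1 hj))]; simp
  · have c1 : (R.card : ℝ) + (n / 8 : ℕ) = E.card + (τ + 1) := by exact_mod_cast b4
    have c2 : (n : ℝ) ^ 2 / 4 ≤ R.card := by nlinarith [τ.cast_nonneg (α := ℝ)]
    have c3 : 0 < R.card := by exact_mod_cast (by nlinarith : (0 : ℝ) < R.card)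
    have c4 : (R.card : ℝ) ≤ E.card := by exact_mod_cast card_le_card b2
    refine ⟨card_pos.1 c3, fun e he => ⟨?_, (erase_subset _ _).trans b2, by omega,
      by rw [card_erase_of_mem he]; omega⟩, pot (by linarith) (by positivity) ?_ τ b1
      (card_pos.1 c3) ?_ fun j hj c5 => ?_⟩
    · rcases step_cases k f e with ⟨c, -⟩ | ⟨y, p, c, d⟩
      · rwa [c]
      · rw [d]; exact b1.upd c subset_rfl trivial
    · rw [one_div_mul_eq_div, ← mul_div_assoc, div_le_div_iff₀ (by positivity) a3]; nlinarith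
    · rw [div_mul_eq_mul_div, le_div_iff₀ a3]; nlinarith
    · have d1 := b1.good_ge (R := R) (T := n / 8) (by rw [card_sdiff_of_subset b2]; omega) hm c5
      have d2 : (1 : ℝ) ≤ (tr f j).card := by exact_mod_cast b1.pos j hj
      have d3 : ((tr f j).card * n : ℝ) ≤ 4 * (R.filter fun e => ∃ y c, W k f e y (j, c)).card +
        4 * (n / 8 : ℕ) := by exact_mod_cast d1
      have d4 : 1 / (8 * n) * (R.card : ℝ) ≤ n / 16 := by
        rw [one_div_mul_eq_div, div_le_iff₀ (by positivity)]; nlinarith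
      nlinarith
  rw [Real.exp_le_exp, neg_le_neg_iff, sum_congr rfl fun j hj => by rw [tr0 hmn, if_pos (mem_range.1 hj)],
    sum_const, card_range, nsmul_eq_mul, div_eq_mul_inv]
  refine mul_le_mul_of_nonneg_left ?_ (Nat.cast_nonneg _)
  have b1 : (8⁻¹ : ℝ) ^ k ≤ (1 - 2 * (4 * k / n)) ^ (n / 8) := by
    have c1 : Real.exp (-(2 * (2 * (4 * k / n)))) ≤ 1 - 2 * (4 * k / n) := by
      have : (0 : ℝ) ≤ 2 * (4 * k / n) := by positivity
      generalize 2 * (4 * (k : ℝ) / n) = x at *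
      have := Real.add_one_le_exp (2 * x)
      rw [Real.exp_neg, inv_le_iff_one_le_mul₀ (Real.exp_pos _)]
      nlinarith
    refine le_trans ?_ (pow_le_pow_left₀ (Real.exp_pos _).le c1 _)
    have c2 : (8⁻¹ : ℝ) ≤ Real.exp (-2) := by
      rw [Real.exp_neg, show (2 : ℝ) = 1 + 1 by norm_num, Real.exp_add]
      gcongr
      nlinarith [Real.exp_one_lt_d9, Real.exp_pos 1]
    refine (pow_le_pow_left₀ (by norm_num) c2 _).trans ?_
    rw [← Real.exp_nat_mul, ← Real.exp_nat_mul, Real.exp_le_exp]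
    have : ((n / 8 : ℕ) : ℝ) * (k / n) ≤ k / 8 := by
      rw [← mul_div_assoc, div_le_iff₀ a3]; nlinarith
    rw [mul_div_assoc]; linarith
  have b2 : (128⁻¹ : ℝ) ^ k ≤ (n / 8).choose (k - 1) * (1 / (8 * n)) ^ (k - 1) *
      (k - 1).descFactorial (k - 1) := by
    have c1 := Nat.pow_sub_le_descFactorial (n / 8) (k - 1)
    rw [Nat.descFactorial_eq_factorial_mul_choose, ← Nat.descFactorial_self] at c1
    have c2 : (n : ℝ) ≤ 16 * (n / 8 + 1 - (k - 1) : ℕ) := by
      exact_mod_cast (by omega : n ≤ 16 * (n / 8 + 1 - (k - 1)))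
    have c3 : (((n / 8 + 1 - (k - 1) : ℕ) : ℝ)) ^ (k - 1) ≤
      (k - 1).descFactorial (k - 1) * (n / 8).choose (k - 1) := by exact_mod_cast c1
    refine (pow_le_pow_of_le_one (by norm_num) (by norm_num) (Nat.sub_le k 1)).trans
      ((pow_le_pow_left₀ (by norm_num) (show _ ≤ (n / 8 + 1 - (k - 1) : ℕ) * (1 / (8 * n) : ℝ) by
        rw [mul_one_div, le_div_iff₀ (by positivity)]; linarith) _).trans ?_)
    rw [mul_pow, mul_right_comm, mul_comm ((n / 8).choose _ : ℝ)]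
    gcongr
  refine le_trans (le_of_eq ?_) (mul_le_mul b1 b2 (by positivity) (pow_nonneg (by linarith) _))
  rw [← mul_pow, pow_mul, ← inv_pow]; norm_num

end Pool.Agent.H.MP_8d021f_pr
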