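import Pool.Agent.H.MP_8d021f_pr.B

set_option autoImplicit false

open Finset SimpleGraph Filter Topology

namespace Pool.Agent.H.MP_8d021f_pr

variable {n k m : ℕ}

/-- graphs containing a binary tree with `k` vertices -/
def P (n k : ℕ) : Set (SimpleGraph (Fin n)) := {G | ∃ (S : Finset ℕ) (v : ℕ → Fin n), S.card = k ∧
  Set.InjOn v S ∧ ∀ i ∈ S, 1 ≤ i ∧ (i ≠ 1 → i / 2 ∈ S ∧ G.Adj (v (i / 2)) (v i))}

theorem P_iso {G H : SimpleGraph (Fin n)} (h : G ∈ P n k) (φ : G ≃g H) : H ∈ P n k := by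
  obtain ⟨S, v, h1, h2, h3⟩ := h
  exact ⟨S, φ ∘ v, h1, φ.injective.comp_injOn h2, fun i hi => ⟨(h3 i hi).1, fun h =>
    ⟨((h3 i hi).2 h).1, φ.map_adj_iff.2 ((h3 i hi).2 h).2⟩⟩⟩

theorem P_mono {G H : SimpleGraph (Fin n)} (h : G ∈ P n k) (φ : G ≤ H) : H ∈ P n k := by
  obtain ⟨S, v, h1, h2, h3⟩ := h
  exact ⟨S, v, h1, h2, fun i hi => ⟨(h3 i hi).1, fun h => ⟨((h3 i hi).2 h).1, φ ((h3 i hi).2 h).2⟩⟩⟩

theorem P_deg {G : SimpleGraph (Fin n)} (h : Minimal (· ∈ P n k) G) (x : Fin n) :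
    (G.neighborSet x).ncard ≤ 3 := by
  obtain ⟨⟨S, v, h1, h2, h3⟩, h4⟩ := h
  have h5 : fromEdgeSet {e | ∃ i ∈ S, i ≠ 1 ∧ e = s(v (i / 2), v i)} ≤ G := by
    rw [fromEdgeSet_le]
    rintro _ ⟨⟨i, a1, a2, rfl⟩, -⟩
    exact ((h3 i a1).2 a2).2
  have h6 := h4 (show _ ∈ P n k from ⟨S, v, h1, h2, fun i hi => ⟨(h3 i hi).1, fun h =>
    ⟨((h3 i hi).2 h).1, (fromEdgeSet_adj _).2
      ⟨show ∃ j ∈ S, j ≠ 1 ∧ _ = s(v (j / 2), v j) from ⟨i, hi, h, rfl⟩, ((h3 i hi).2 h).2.ne⟩⟩⟩⟩) h5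
  by_cases h7 : ∃ j ∈ S, v j = x
  · obtain ⟨j, h7, rfl⟩ := h7
    refine (Set.ncard_le_ncard (t := ({v (j / 2), v (2 * j), v (2 * j + 1)} : Finset (Fin n)))
      fun y hy => ?_).trans (by rw [Set.ncard_coe_finset]; exact card_le_three)
    obtain ⟨⟨i, a1, a2, a3⟩, -⟩ := (fromEdgeSet_adj _).1 (h6 hy)
    rcases Sym2.eq_iff.1 a3 with ⟨a4, rfl⟩ | ⟨a4, rfl⟩
    · have := h2 h7 ((h3 i a1).2 a2).1 a4
      rcases (by omega : i = 2 * j ∨ i = 2 * j + 1) with rfl | rfl <;> simp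
    · simp [h2 h7 a1 a4]
  · refine (Set.ncard_le_ncard (t := ∅) fun y hy => h7 ?_).trans (by simp)
    obtain ⟨⟨i, a1, a2, a3⟩, -⟩ := (fromEdgeSet_adj _).1 (h6 hy)
    rcases Sym2.eq_iff.1 a3 with ⟨a4, -⟩ | ⟨a4, -⟩
    · exact ⟨_, ((h3 i a1).2 a2).1, a4.symm⟩
    · exact ⟨_, a1, a4.symm⟩

theorem shape {G : SimpleGraph (Fin n)} (h : G ∈ P n (k + 1)) :
    ∃ (w : Fin (k + 1) → Fin n) (p : Fin (k + 1) → Fin (k + 1)), Function.Injective w ∧ Monotone p ∧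
      ∀ i ≠ 0, p i < i ∧ G.Adj (w (p i)) (w i) := by
  obtain ⟨S, v, h1, h2, h3⟩ := h
  set a := S.orderEmbOfFin h1
  have h4 : ∀ i, a i ∈ S := fun i => S.orderEmbOfFin_mem h1 i
  have h5 : ∀ i ≠ 0, 2 ≤ a i := fun i hi => by
    have := a.strictMono (Fin.pos_iff_ne_zero.2 hi)
    have := (h3 _ (h4 0)).1
    omega
  have h6 : ∀ i ≠ 0, ∃ j, a j = a i / 2 := fun i hi => by
    have : a i / 2 ∈ Set.range a := by
      rw [range_orderEmbOfFin]; exact ((h3 _ (h4 i)).2 (by have := h5 i hi; omega)).1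
    exact this
  choose! p hp using h6
  refine ⟨v ∘ a, fun i => if i = 0 then 0 else p i, fun i j h => a.injective (h2 (h4 i) (h4 j) h),
    fun i j hij => ?_, fun i hi => ?_⟩
  · by_cases hi : i = 0
    · simp [hi]
    have hj : j ≠ 0 := fun h => hi (le_antisymm (h ▸ hij) (Fin.zero_le _))
    simp only [hi, hj, if_false]
    rw [← a.le_iff_le, hp i hi, hp j hj]
    exact Nat.div_le_div_right (a.monotone hij)
  · have := h5 i hi
    simp only [hi, if_false, Function.comp, hp i hi]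
    exact ⟨by rw [← a.lt_iff_lt, hp i hi]; omega, ((h3 _ (h4 i)).2 (by omega)).2⟩

open Classical in
theorem card_mono' (k : ℕ) : (univ.filter fun p : Fin k → Fin k => Monotone p).card ≤ 4 ^ k := by
  refine (card_le_card_of_injOn (t := (range (2 * k)).powerset)
    (fun p => univ.image fun i : Fin k => (p i : ℕ) + i) (fun p _ => ?_) fun p hp q hq h => ?_).trans
    (by simp [pow_mul])
  · simp only [coe_powerset, Set.mem_preimage, Set.mem_powerset_iff, coe_subset]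
    intro x hx
    obtain ⟨i, -, rfl⟩ := mem_image.1 hx
    have := (p i).2; have := i.2
    rw [mem_range]; omega
  have h1 : ∀ p : Fin k → Fin k, Monotone p → StrictMono fun i => (p i : ℕ) + i := fun p hp i j hij =>
    add_lt_add_of_le_of_lt (hp hij.le) hij
  have h2 := (StrictMono.range_inj (h1 p (mem_filter.1 hp).2) (h1 q (mem_filter.1 hq).2)).1
    (by simpa using congrArg (fun s : Finset ℕ => (s : Set ℕ)) h)
  exact funext fun i => Fin.ext (add_right_cancel (congrFun h2 i))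

theorem union_bd {α ι : Type} [DecidableEq α] (E : Finset α) (X : Finset ι) (F : ι → Finset α)
    (A : List α → Prop) [DecidablePred A] {M : ℝ} (hM : 0 < M) {t : ℕ} (h : M + t ≤ E.card)
    (h1 : ∀ x ∈ X, (F x).card = k) (h2 : ∀ L, A L → ∃ x ∈ X, ∀ e ∈ F x, e ∈ L.take t) :
    (((ords E).filter A).card : ℝ) ≤ X.card * (E.card.factorial * (t / M) ^ k) := by
  have h3 := (card_le_card (s := (ords E).filter A)
    (t := X.biUnion fun x => (ords E).filter fun L => ∀ e ∈ F x, e ∈ L.take t) fun L hL => by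
      obtain ⟨x, a1, a2⟩ := h2 L (mem_filter.1 hL).2
      exact mem_biUnion.2 ⟨x, a1, mem_filter.2 ⟨(mem_filter.1 hL).1, a2⟩⟩).trans card_biUnion_le
  refine ((Nat.cast_le (α := ℝ)).2 h3).trans ?_
  rw [Nat.cast_sum, ← nsmul_eq_mul]
  exact sum_le_card_nsmul _ _ _ fun x hx => (fm E _ hM h).trans_eq (by rw [h1 x hx])

open Classical in
theorem early {E : Finset (Sym2 (Fin n))} {M : ℝ} (hM : 0 < M) {t : ℕ} (h : M + t ≤ E.card) :
    (((ords E).filter fun L => fromEdgeSet {e | e ∈ L.take t} ∈ P n (k + 1)).card : ℝ) ≤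
      E.card.factorial * (n ^ (k + 1) * 4 ^ (k + 1) * (t / M) ^ k) := by
  obtain ⟨X, hX, h1⟩ : ∃ X : Finset ((Fin (k + 1) → Fin n) × (Fin (k + 1) → Fin (k + 1))),
      (∀ x, x ∈ X ↔ Monotone x.2 ∧ Function.Injective x.1 ∧ ∀ i ≠ 0, x.2 i < i) ∧
      X.card ≤ n ^ (k + 1) * 4 ^ (k + 1) :=
    ⟨(univ ×ˢ univ.filter fun p : Fin (k + 1) → Fin (k + 1) => Monotone p).filter fun x =>
      Function.Injective x.1 ∧ ∀ i ≠ 0, x.2 i < i, fun x => by simp, (card_filter_le _ _).trans (by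
      simpa using Nat.mul_le_mul_left _ (card_mono' (k + 1)))⟩
  refine (union_bd (k := k) E X (fun x => (univ.erase 0).image fun i => s(x.1 (x.2 i), x.1 i)) _ hM h
    (fun x hx => ?_) fun L hL => ?_).trans ?_
  · obtain ⟨-, a1, a2⟩ := (hX x).1 hx
    rw [card_image_of_injOn, card_erase_of_mem (mem_univ _), card_univ, Fintype.card_fin]; rfl
    intro i hi j hj hij
    rcases Sym2.eq_iff.1 hij with a | a
    · exact a1 a.2
    · exact absurd ((a1 a.1 ▸ a2 i (mem_erase.1 hi).1 : j < i).trans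
        (a1 a.2 ▸ a2 j (mem_erase.1 hj).1)) (lt_irrefl _)
  · obtain ⟨w, p, a1, a2, a3⟩ := shape hL
    refine ⟨(w, p), (hX _).2 ⟨a2, a1, fun i hi => (a3 i hi).1⟩, fun e he => ?_⟩
    obtain ⟨i, hi, rfl⟩ := mem_image.1 he
    exact ((fromEdgeSet_adj _).1 (a3 i (mem_erase.1 hi).1).2).1
  · rw [mul_left_comm]; gcongr; exact_mod_cast h1

/-- the state after a list of edges -/
noncomputable def st (k m : ℕ) (L : List (Sym2 (Fin n))) : Fin n → ℕ × ℕ := L.foldl (step k) (f0 n m)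

/-- bought edges -/
def bt (k m : ℕ) (L : List (Sym2 (Fin n))) (t : ℕ) : Set (Sym2 (Fin n)) :=
  {e | ∃ i < t, L[i]? = some e ∧ st k m (L.take (i + 1)) ≠ st k m (L.take i)}

theorem run (h : m ≤ n) (hk : 0 < m → 1 ≤ k) (L : List (Sym2 (Fin n))) (t : ℕ) :
    Inv k m (st k m (L.take t)) (bt k m L t) ∧
      (bt k m L t).ncard ≤ (univ.filter fun x => (st k m (L.take t) x).2 ≠ 0).card := by
  induction t with
  | zero => exact ⟨inv0 h hk _, by simp [bt]⟩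
  | succ t ih =>
    have h1 : st k m (L.take (t + 1)) = st k m (L.take t) → bt k m L (t + 1) = bt k m L t := fun h =>
      Set.ext fun e => ⟨fun ⟨i, a1, a2, a3⟩ => ⟨i, lt_of_le_of_ne (by omega)
        (by rintro rfl; exact a3 h), a2, a3⟩, fun ⟨i, a1, a2⟩ => ⟨i, by omega, a2⟩⟩
    by_cases h0 : st k m (L.take (t + 1)) = st k m (L.take t)
    · rwa [h1 h0, h0]
    rcases h2 : L[t]? with _ | e
    · simp [List.take_add_one, h2] at h0
    have h3 : st k m (L.take (t + 1)) = step k (st k m (L.take t)) e := by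
      simp [st, List.take_add_one, h2]
    have h4 : bt k m L (t + 1) = insert e (bt k m L t) := Set.ext fun x =>
      ⟨fun ⟨i, a1, a2, a3⟩ => (Nat.lt_succ_iff_lt_or_eq.1 a1).elim (fun a => .inr ⟨i, a, a2, a3⟩)
        fun a => .inl (by rw [a, h2] at a2; exact (Option.some.inj a2).symm),
       fun a => a.elim (fun a => ⟨t, by omega, a ▸ h2, h0⟩) fun ⟨i, a1, a2⟩ => ⟨i, by omega, a2⟩⟩
    rcases step_cases k (st k m (L.take t)) e with ⟨a, -⟩ | ⟨y, p, a1, a2⟩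
    · exact (h0 (h3.trans a)).elim
    rw [h3, h4, a2]
    refine ⟨ih.1.upd a1 (Set.subset_insert _ _) (Set.mem_insert _ _), (Set.ncard_insert_le _ _).trans
      ((Nat.succ_le_succ ih.2).trans ?_)⟩
    obtain ⟨-, b1, b2, -⟩ := a1
    refine card_lt_card ((ssubset_iff_of_subset (fun x hx => ?_)).2 ⟨y, by simp; omega, by simp [b1]⟩)
    by_cases hxy : x = y
    · simp [hxy]; omega
    · simpa [hxy] using hx

theorem Inv.succ {f : Fin n → ℕ × ℕ} {B : Set (Sym2 (Fin n))} (h : Inv k m f B) (hk : 1 ≤ k) {j : ℕ}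
    (hj : ¬ (tr f j).card < k) : fromEdgeSet B ∈ P n k := by
  classical
  obtain ⟨x0, -⟩ := card_pos.1 (show 0 < (tr f j).card by omega)
  have h1 : ∀ i, ∃ x, (∃ y, f y = (j, i)) → f x = (j, i) := fun i => by
    by_cases h : ∃ y, f y = (j, i)
    · exact h.imp fun _ h _ => h
    · exact ⟨x0, fun k => (h k).elim⟩
  choose v hv using h1
  have h2 : ∀ i, i ∈ (tr f j).image (fun x => (f x).2) ↔ i ≠ 0 ∧ f (v i) = (j, i) := fun i => by
    simp only [mem_image, tr, mem_filter, mem_univ, true_and]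
    exact ⟨fun ⟨x, a, b⟩ => ⟨b ▸ a.2, hv i ⟨x, Prod.ext a.1 b⟩⟩, fun a => ⟨v i, by simp [a.2, a.1]⟩⟩
  refine ⟨(tr f j).image fun x => (f x).2, v, ?_, fun a ha b hb hab => ?_, fun i hi => ?_⟩
  · rw [card_image_of_injOn fun x hx y hy hxy => h.inj x y (mem_filter.1 hx).2.2
      (Prod.ext ((mem_filter.1 hx).2.1.trans (mem_filter.1 hy).2.1.symm) hxy)]
    exact le_antisymm (h.le j) (not_lt.1 hj)
  · have := ((h2 a).1 ha).2
    rw [hab, ((h2 b).1 hb).2] at this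
    exact (Prod.mk.inj this).2.symm
  obtain ⟨a1, a2⟩ := (h2 i).1 hi
  refine ⟨by omega, fun a3 => ?_⟩
  obtain ⟨x, a4, a5⟩ := h.par (v i) (by rw [a2]; simp only; omega)
  rw [a2] at a4
  have a6 := hv _ ⟨x, a4⟩
  rw [h.inj x _ (by rw [a4]; simp only; omega) (a4.trans a6.symm)] at a5
  refine ⟨(h2 _).2 ⟨by omega, a6⟩, (fromEdgeSet_adj _).2 ⟨a5, fun a7 => ?_⟩⟩
  rw [a7, a2] at a6
  simp only [Prod.mk.injEq] at a6; omega

end Pool.Agent.H.MP_8d021f_pr
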